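import Pool.Agent.Helper19.SDim.Spec

/-!
# COMP: comparison with subsolutions
-/

noncomputable section

open MeasureTheory Filter Set Metric
open scoped Topology ENNReal NNReal RealInnerProductSpace ContDiff Gradient

namespace Helper19.SDim.Comp

variable {N : ℕ}

/-! ### the function `h` -/

/-- `h t = (t⁺)² / (1 + t⁺)` -/
def hh (t : ℝ) : ℝ := (max t 0) ^ 2 / (1 + max t 0)

/-- its derivative -/
def dh (t : ℝ) : ℝ := 1 - 1 / (1 + max t 0) ^ 2

theorem hh_zero : hh 0 = 0 := by simp [hh]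

theorem hh_nonneg (t : ℝ) : 0 ≤ hh t := by
  unfold hh
  have : 0 ≤ max t 0 := le_max_right _ _
  positivity

theorem hh_of_nonpos {t : ℝ} (ht : t ≤ 0) : hh t = 0 := by
  unfold hh; rw [max_eq_right ht]; simp

theorem hh_of_nonneg {t : ℝ} (ht : 0 ≤ t) : hh t = t ^ 2 / (1 + t) := by
  unfold hh; rw [max_eq_left ht]

theorem hh_le (t : ℝ) : |hh t| ≤ t ^ 2 := by
  rw [abs_of_nonneg (hh_nonneg t)]
  rcases le_or_gt t 0 with h | h
  · rw [hh_of_nonpos h]; positivity
  · rw [hh_of_nonneg h.le]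
    exact div_le_self (by positivity) (by linarith)

theorem hasDeriv (t : ℝ) : HasDerivAt hh (dh t) t := by
  rcases lt_trichotomy t 0 with h | h | h
  · have h1 : dh t = 0 := by unfold dh; rw [max_eq_right h.le]; norm_num
    rw [h1]
    refine (hasDerivAt_const t (0 : ℝ)).congr_of_eventuallyEq ?_
    filter_upwards [Iio_mem_nhds h] with y hy
    exact hh_of_nonpos hy.le
  · subst h
    have h1 : dh 0 = 0 := by unfold dh; norm_num
    rw [h1, hasDerivAt_iff_isLittleO]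
    simp only [sub_zero, smul_zero, hh_zero]
    have h2 : (fun x : ℝ => hh x) =O[𝓝 0] fun x : ℝ => x ^ 2 := by
      refine Asymptotics.IsBigO.of_bound 1 (Eventually.of_forall fun x => ?_)
      rw [Real.norm_eq_abs, one_mul, Real.norm_eq_abs, abs_of_nonneg (sq_nonneg x)]
      exact hh_le x
    refine h2.trans_isLittleO ?_
    have := Asymptotics.isLittleO_pow_id (𝕜 := ℝ) (n := 2) (by norm_num)
    simpa using this
  · have h1 : dh t = (2 * t * (1 + t) - t ^ 2 * 1) / (1 + t) ^ 2 := by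
      unfold dh; rw [max_eq_left h.le]
      field_simp
      ring
    rw [h1]
    have h2 : HasDerivAt (fun y : ℝ => y ^ 2 / (1 + y)) ((2 * t * (1 + t) - t ^ 2 * 1) / (1 + t) ^ 2) t := by
      have h3 : HasDerivAt (fun y : ℝ => y ^ 2) (2 * t) t := by
        simpa using hasDerivAt_pow 2 t
      have h4 : HasDerivAt (fun y : ℝ => 1 + y) 1 t := (hasDerivAt_id t).const_add 1
      exact h3.div h4 (by positivity)
    refine h2.congr_of_eventuallyEq ?_
    filter_upwards [Ioi_mem_nhds h] with y hy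
    exact hh_of_nonneg (le_of_lt hy)

theorem deriv_hh : deriv hh = dh := funext fun t => (hasDeriv t).deriv

theorem dh_cont : Continuous dh := by
  unfold dh
  refine continuous_const.sub (continuous_const.div (by fun_prop) fun t => ?_)
  have : 0 ≤ max t 0 := le_max_right _ _
  positivity

theorem hh_c1 : ContDiff ℝ 1 hh := by
  rw [contDiff_one_iff_deriv]
  refine ⟨fun t => (hasDeriv t).differentiableAt, ?_⟩
  rw [deriv_hh]
  exact dh_cont

theorem dh_nonneg (t : ℝ) : 0 ≤ dh t := by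
  unfold dh
  have : 0 ≤ max t 0 := le_max_right _ _
  rw [sub_nonneg, div_le_one (by positivity)]
  nlinarith

theorem dh_le (t : ℝ) : dh t ≤ 1 := by
  unfold dh
  have : 0 ≤ max t 0 := le_max_right _ _
  have : 0 ≤ 1 / (1 + max t 0) ^ 2 := by positivity
  linarith

theorem dh_pos {t : ℝ} (ht : 0 < t) : 0 < dh t := by
  unfold dh
  rw [max_eq_left ht.le, sub_pos, div_lt_one (by positivity)]
  nlinarith

theorem hh_pos {t : ℝ} (ht : 0 < t) : 0 < hh t := by
  rw [hh_of_nonneg ht.le]; positivity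

/-! ### pairings -/

section pairing

variable {α : Type*} [MeasurableSpace α] {μ : Measure α} {H : Type*} [NormedAddCommGroup H]
  [InnerProductSpace ℝ H]

theorem pair_int {p q : ℝ} (hpq : p.HolderConjugate q) {A V : α → H}
    (hA : MemLp A (ENNReal.ofReal q) μ) (hV : MemLp V (ENNReal.ofReal p) μ) :
    Integrable (fun x => ⟪A x, V x⟫) μ := by
  have := hpq.symm.ennrealOfReal
  rw [← memLp_one_iff_integrable]
  refine MemLp.of_bilin (p := ENNReal.ofReal q) (q := ENNReal.ofReal p)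
    (fun a b => ⟪a, b⟫) 1 hA hV (hA.1.inner hV.1) (Eventually.of_forall fun x => ?_)
  rw [one_mul]
  exact_mod_cast norm_inner_le_norm (𝕜 := ℝ) (A x) (V x)

theorem pair_tendsto {p q : ℝ} (hpq : p.HolderConjugate q) {A V : α → H} {W : ℕ → α → H}
    (hA : MemLp A (ENNReal.ofReal q) μ) (hV : MemLp V (ENNReal.ofReal p) μ)
    (hW : ∀ n, MemLp (W n) (ENNReal.ofReal p) μ)
    (h : Tendsto (fun n => eLpNorm (fun x => W n x - V x) (ENNReal.ofReal p) μ) atTop (𝓝 0)) :
    Tendsto (fun n => ∫ x, ⟪A x, W n x⟫ ∂μ) atTop (𝓝 (∫ x, ⟪A x, V x⟫ ∂μ)) := by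
  have := hpq.symm.ennrealOfReal
  refine tendsto_integral_of_L1 _ (pair_int hpq hA hV).1
    (Eventually.of_forall fun n => pair_int hpq hA (hW n)) ?_
  have h1 : ∀ n, ∫⁻ x, ‖⟪A x, W n x⟫ - ⟪A x, V x⟫‖ₑ ∂μ ≤
      eLpNorm A (ENNReal.ofReal q) μ * eLpNorm (fun x => W n x - V x) (ENNReal.ofReal p) μ := by
    intro n
    have h2 := eLpNorm_le_eLpNorm_mul_eLpNorm'_of_norm (p := ENNReal.ofReal q)
      (q := ENNReal.ofReal p) (r := 1) (μ := μ) hA.1 (g := fun x => W n x - V x)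
      ((hW n).1.sub hV.1) (fun a b => ⟪a, b⟫) 1 (Eventually.of_forall fun x => by
        simpa using norm_inner_le_norm (𝕜 := ℝ) (A x) (W n x - V x))
    rw [eLpNorm_one_eq_lintegral_enorm] at h2
    simp only [inner_sub_right, ENNReal.coe_one, one_mul] at h2
    exact h2
  have h3 : Tendsto (fun n => eLpNorm A (ENNReal.ofReal q) μ *
      eLpNorm (fun x => W n x - V x) (ENNReal.ofReal p) μ) atTop (𝓝 0) := by
    have := ENNReal.Tendsto.const_mul h (Or.inr hA.2.ne)
    rwa [mul_zero] at this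
  exact tendsto_of_tendsto_of_tendsto_of_le_of_le tendsto_const_nhds h3 (fun _ => zero_le) h1

end pairing

/-! ### gradients -/

theorem grad_cont {v : E N → ℝ} (hv : ContDiff ℝ 1 v) : Continuous (∇ v) := by
  have h1 : ∇ v = fun x => (InnerProductSpace.toDual ℝ (E N)).symm (fderiv ℝ v x) := rfl
  rw [h1]
  exact (LinearIsometryEquiv.continuous _).comp (hv.continuous_fderiv one_ne_zero)

theorem grad_zero_of_notMem {v : E N → ℝ} {x : E N} (hx : x ∉ tsupport v) : ∇ v x = 0 := by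
  have h1 : ∇ v x = (InnerProductSpace.toDual ℝ (E N)).symm (fderiv ℝ v x) := rfl
  rw [h1, fderiv_of_notMem_tsupport (𝕜 := ℝ) hx, map_zero]

theorem grad_supp {v : E N → ℝ} (hv : HasCompactSupport v) : HasCompactSupport (∇ v) := by
  refine HasCompactSupport.intro hv.isCompact fun x hx => grad_zero_of_notMem hx

theorem memLp_c1c {Ω : Set (E N)} {v : E N → ℝ} (hv : C1c Ω v) (p : ℝ≥0∞) :
    MemLp v p (volume.restrict Ω) :=
  (hv.1.continuous.memLp_of_hasCompactSupport hv.2.1).mono_measure Measure.restrict_le_self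

theorem memLp_grad {Ω : Set (E N)} {v : E N → ℝ} (hv : C1c Ω v) (p : ℝ≥0∞) :
    MemLp (∇ v) p (volume.restrict Ω) :=
  ((grad_cont hv.1).memLp_of_hasCompactSupport (grad_supp hv.2.1)).mono_measure
    Measure.restrict_le_self

theorem apx_const {Ω : Set (E N)} {p : ℝ} {v : E N → ℝ} (hv : C1c Ω v) :
    Apx Ω p (fun _ => v) v (∇ v) := by
  refine ⟨fun _ => hv, memLp_c1c hv _, memLp_grad hv _, ?_, ?_⟩
  · simp
  · simp

theorem norm_pow_smul {p : ℝ} (hp : 1 < p) (a : E N) : ‖(‖a‖ ^ (p - 2)) • a‖ = ‖a‖ ^ (p - 1) := by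
  by_cases h : a = 0
  · subst h
    simp only [smul_zero, norm_zero]
    rw [Real.zero_rpow (by linarith)]
  · have h1 : 0 < ‖a‖ := norm_pos_iff.2 h
    rw [norm_smul, Real.norm_eq_abs, abs_of_nonneg (by positivity), ← Real.rpow_add_one h1.ne']
    congr 1; ring

theorem memLp_pow {μ : Measure (E N)} {p : ℝ} (hp : 1 < p) {G : E N → E N}
    (hG : MemLp G (ENNReal.ofReal p) μ) :
    MemLp (fun x => (‖G x‖ ^ (p - 2)) • G x) (ENNReal.ofReal (p / (p - 1))) μ := by
  have h0 : AEStronglyMeasurable (fun x => (‖G x‖ ^ (p - 2)) • G x) μ := by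
    have h2 : AEStronglyMeasurable (fun x => ‖G x‖ ^ (p - 2)) μ :=
      (hG.1.norm.aemeasurable.pow_const (p - 2)).aestronglyMeasurable
    exact h2.smul hG.1
  have h1 := hG.norm_rpow_div (ENNReal.ofReal (p - 1))
  rw [ENNReal.toReal_ofReal (by linarith), ← ENNReal.ofReal_div_of_pos (by linarith)] at h1
  refine h1.of_le h0 (Eventually.of_forall fun x => ?_)
  rw [norm_pow_smul hp, Real.norm_eq_abs, abs_of_nonneg (by positivity)]

theorem comp_thm (hEXT : S_EXT) (hCHAIN : S_CHAIN) (hSUB : S_SUB) (hPOIN : S_POIN)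
    (hVEC : S_VEC) : S_COMP := by
  intro N p Ω u G F v hN hp hp2 hΩ hb hW hF hE hv hsub
  obtain ⟨φ, hφ⟩ := hW
  have hpq : p.HolderConjugate (p / (p - 1)) := Real.HolderConjugate.conjExponent hp
  have hA := hSUB N Ω p (fun _ => v) φ v u (∇ v) G hp.le (apx_const hv) hφ
  obtain ⟨k, -, hk⟩ := hCHAIN N Ω p _ _ _ hh 1 hp.le hA hh_c1 hh_zero (fun t => by
    rw [deriv_hh, abs_of_nonneg (dh_nonneg t)]; exact dh_le t)
  have hW1 : W1 Ω p (fun x => hh (v x - u x)) (fun x => deriv hh (v x - u x) • (∇ v x - G x)) :=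
    ⟨_, hk⟩
  -- the equation tested with `h (v - u)`
  obtain ⟨hi1, hi2, heq⟩ := hEXT N Ω p G F _ _ hΩ hp hφ.mG hF hE hW1
  -- the subsolution inequality tested with `h (v - u)`
  have hAv : MemLp (fun x => (‖∇ v x‖ ^ (p - 2)) • ∇ v x) (ENNReal.ofReal (p / (p - 1)))
      (volume.restrict Ω) := memLp_pow hp (memLp_grad hv _)
  have hlim1 := pair_tendsto hpq hAv hk.mG (fun n => memLp_grad (hk.c1 n) _) hk.tG
  have hlim2 := pair_tendsto hpq hF hk.mu (fun n => memLp_c1c (hk.c1 n) _) hk.tu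
  have hineq : ∫ x in Ω, ⟪(‖∇ v x‖ ^ (p - 2)) • ∇ v x, deriv hh (v x - u x) • (∇ v x - G x)⟫ ≤
      ∫ x in Ω, ⟪F x, hh (v x - u x)⟫ := by
    refine le_of_tendsto_of_tendsto' hlim1 hlim2 fun n => ?_
    have h1 := hsub _ (hk.c1 n) (fun x => hh_nonneg _)
    have h2 : ∀ a b : ℝ, ⟪a, b⟫ = a * b := fun a b => by simp [mul_comm]
    simp only [real_inner_smul_left, h2]
    exact h1
  have h2 : ∀ a b : ℝ, ⟪a, b⟫ = a * b := fun a b => by simp [mul_comm]
  simp only [h2] at hineq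
  have hi3 := pair_int hpq hAv hk.mG
  have hi4 : Integrable (fun x => ⟪(‖G x‖ ^ (p - 2)) • G x,
      deriv hh (v x - u x) • (∇ v x - G x)⟫) (volume.restrict Ω) :=
    pair_int hpq (memLp_pow hp hφ.mG) hk.mG
  have heq' : ∫ x in Ω, ⟪(‖G x‖ ^ (p - 2)) • G x, deriv hh (v x - u x) • (∇ v x - G x)⟫ =
      ∫ x in Ω, F x * hh (v x - u x) := by
    rw [← heq]
    refine integral_congr_ae (Eventually.of_forall fun x => ?_)
    simp only [real_inner_smul_left]
  have hdiff : ∫ x in Ω, (⟪(‖∇ v x‖ ^ (p - 2)) • ∇ v x, deriv hh (v x - u x) • (∇ v x - G x)⟫ -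
      ⟪(‖G x‖ ^ (p - 2)) • G x, deriv hh (v x - u x) • (∇ v x - G x)⟫) ≤ 0 := by
    rw [integral_sub hi3 hi4, heq']
    linarith
  obtain ⟨-, -, hmono⟩ := hVEC N p hp hp2
  have hform : ∀ x, ⟪(‖∇ v x‖ ^ (p - 2)) • ∇ v x, deriv hh (v x - u x) • (∇ v x - G x)⟫ -
      ⟪(‖G x‖ ^ (p - 2)) • G x, deriv hh (v x - u x) • (∇ v x - G x)⟫ =
      dh (v x - u x) * ⟪(‖∇ v x‖ ^ (p - 2)) • ∇ v x - (‖G x‖ ^ (p - 2)) • G x, ∇ v x - G x⟫ := by
    intro x
    rw [← inner_sub_left, real_inner_smul_right, deriv_hh]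
  have hnn : ∀ x, 0 ≤ ⟪(‖∇ v x‖ ^ (p - 2)) • ∇ v x, deriv hh (v x - u x) • (∇ v x - G x)⟫ -
      ⟪(‖G x‖ ^ (p - 2)) • G x, deriv hh (v x - u x) • (∇ v x - G x)⟫ := by
    intro x
    rw [hform]
    refine mul_nonneg (dh_nonneg _) ?_
    by_cases h : ∇ v x = G x
    · rw [h]; simp
    · exact (hmono _ _ h).le
  have hzero : ∀ᵐ x ∂(volume.restrict Ω),
      ⟪(‖∇ v x‖ ^ (p - 2)) • ∇ v x, deriv hh (v x - u x) • (∇ v x - G x)⟫ -
      ⟪(‖G x‖ ^ (p - 2)) • G x, deriv hh (v x - u x) • (∇ v x - G x)⟫ = 0 := by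
    have h1 := (integral_eq_zero_iff_of_nonneg hnn (hi3.sub hi4)).1
      (le_antisymm hdiff (integral_nonneg hnn))
    exact h1
  have hgz : (fun x => deriv hh (v x - u x) • (∇ v x - G x)) =ᵐ[volume.restrict Ω] fun _ => 0 := by
    filter_upwards [hzero] with x hx
    rw [hform] at hx
    by_cases h : ∇ v x = G x
    · rw [h]; simp
    · have h3 := hmono _ _ h
      have h4 : dh (v x - u x) = 0 := by
        rcases mul_eq_zero.1 hx with h5 | h5
        · exact h5
        · exact absurd h5 h3.ne'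
      rw [deriv_hh, h4, zero_smul]
  obtain ⟨C, hC⟩ := hPOIN N p Ω hN hp hp2 hb hΩ.measurableSet
  have hle := hC _ _ hW1
  rw [eLpNorm_congr_ae hgz] at hle
  have hz : eLpNorm (fun x => hh (v x - u x)) (ENNReal.ofReal p) (volume.restrict Ω) = 0 := by
    simpa using hle
  rw [eLpNorm_eq_zero_iff hk.mu.1 (by simp; linarith)] at hz
  filter_upwards [hz] with x hx
  by_contra hc
  have h5 := hh_pos (t := v x - u x) (by linarith)
  exact h5.ne' hx

end Helper19.SDim.Comp
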