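import Pool.Agent.Helper19.SDim.Spec

/-!
# UPPER: the upper bound for the dimension of the singular set
-/

noncomputable section

open MeasureTheory Filter Set Metric
open scoped Topology ENNReal NNReal RealInnerProductSpace ContDiff Gradient

namespace Helper19.SDim.Upper

variable {N : ℕ}

/-- CACC: the energy estimate (with parentheses around the first integral). -/
def CACC : Prop := ∀ (N : ℕ) (p : ℝ) (ψ w : ℝ → ℝ) (K : ℝ), 2 ≤ N → 1 < p → p < 2 →
  Aux N p ψ w K → ∃ C > 0, ∀ (Ω : Set (E N)) (u : E N → ℝ) (G : E N → E N) (F : E N → ℝ),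
    IsOpen Ω → W1 Ω p u G → MemLp F (ENNReal.ofReal (p / (p - 1))) (volume.restrict Ω) →
    Eqn Ω p G F → ∀ (x₀ : E N) (r a d : ℝ), 0 < r → ball x₀ r ⊆ Ω → 0 ≤ a → 0 < d →
    IntegrableOn (fun x => (w ((u x - a) / d)) ^ pst N p) (ball x₀ (r / 2)) ∧
    (∫ x in ball x₀ (r / 2), (w ((u x - a) / d)) ^ pst N p) ^ (p / pst N p) ≤
      C * (d ^ (1 - p) * (∫ x in ball x₀ r, |F x|) +
        r ^ (-p) * ∫ x in ball x₀ r ∩ {x | a < u x}, (1 + ((u x - a) / d) ^ gam N p))

theorem test_c1c {Ω : Set (E N)} {φ : E N → ℝ} (h : Test Ω φ) : C1c Ω φ :=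
  ⟨h.1.of_le (by exact_mod_cast le_top), h.2.1, h.2.2⟩

theorem w0_w1 {Ω : Set (E N)} {p : ℝ} {u : E N → ℝ} {G : E N → E N} (h : W0 Ω p u G) :
    W1 Ω p u G := by
  obtain ⟨h1, h2, φ, h3, h4, h5⟩ := h
  exact ⟨φ, fun n => test_c1c (h3 n), h1, h2, h4, h5⟩

theorem gam_pos {p : ℝ} (hN : 2 ≤ N) (hp : 1 < p) (hp2 : p < 2) : 0 < gam N p := by
  have h2 : (2 : ℝ) ≤ N := by exact_mod_cast hN
  unfold gam
  apply div_pos <;> [apply mul_pos; skip] <;> linarith

theorem gam_le {p : ℝ} (hN : 2 ≤ N) (hp : 1 < p) (hp2 : p < 2) : gam N p ≤ p := by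
  have h2 : (2 : ℝ) ≤ N := by exact_mod_cast hN
  unfold gam
  rw [div_le_iff₀ (by linarith)]
  nlinarith

/-- Hölder's inequality on a ball -/
theorem holder_ball {q p : ℝ} (hpq : p.HolderConjugate q) {F : E N → ℝ} {x₀ : E N} {r M s : ℝ}
    (hr : 0 < r) (hF : MemLp F (ENNReal.ofReal q) (volume.restrict (ball x₀ r)))
    (hM : ∫ x in ball x₀ r, |F x| ^ q ≤ M * r ^ s) (hM0 : 0 < M) :
    ∫ x in ball x₀ r, |F x| ≤
      (M ^ (1 / q) * (volume (ball (0 : E N) 1)).toReal ^ (1 / p)) * r ^ (s / q + N / p) := by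
  have hfin : volume (ball x₀ r) < ⊤ := measure_ball_lt_top
  have : IsFiniteMeasure (volume.restrict (ball x₀ r)) := ⟨by simpa using hfin⟩
  have h1 := integral_mul_le_Lp_mul_Lq_of_nonneg (μ := volume.restrict (ball x₀ r)) hpq.symm
    (f := fun x => |F x|) (g := fun _ => (1 : ℝ)) (Eventually.of_forall fun x => abs_nonneg _)
    (Eventually.of_forall fun x => zero_le_one) hF.abs (memLp_const 1)
  simp only [mul_one, Real.one_rpow, integral_const, smul_eq_mul, mul_one] at h1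
  have h2 : (volume.restrict (ball x₀ r)).real Set.univ =
      r ^ (N : ℝ) * (volume (ball (0 : E N) 1)).toReal := by
    rw [Measure.real, Measure.restrict_apply_univ, Measure.addHaar_ball_of_pos _ _ hr]
    rw [ENNReal.toReal_mul, ENNReal.toReal_ofReal (by positivity), finrank_euclideanSpace,
      Fintype.card_fin, Real.rpow_natCast]
  rw [h2] at h1
  refine h1.trans ?_
  have h3 : (∫ x in ball x₀ r, |F x| ^ q) ^ (1 / q) ≤ (M * r ^ s) ^ (1 / q) :=
    Real.rpow_le_rpow (integral_nonneg fun x => by positivity) hM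
      (by have := hpq.symm.pos; positivity)
  refine (mul_le_mul_of_nonneg_right h3 (by positivity)).trans (le_of_eq ?_)
  rw [Real.mul_rpow hM0.le (by positivity), Real.mul_rpow (by positivity) ENNReal.toReal_nonneg,
    ← Real.rpow_mul hr.le, ← Real.rpow_mul hr.le, Real.rpow_add hr]
  ring_nf

theorem exists_radius {C γ a r₁ : ℝ} (hC : 0 < C) (hγ : 0 < γ) (hr₁ : 0 < r₁) :
    ∃ r₂ > 0, r₂ ≤ r₁ ∧ ∀ t, 0 < t → t < r₂ → a < C * t ^ (-γ) := by
  set b : ℝ := (C / (|a| + 1)) ^ (1 / γ) with hb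
  have hb0 : 0 < b := by rw [hb]; positivity
  refine ⟨min r₁ b, lt_min hr₁ hb0, min_le_left _ _, ?_⟩
  intro t ht htr
  have h1 : t < b := htr.trans_le (min_le_right _ _)
  have h2 : t ^ γ < C / (|a| + 1) := by
    have := Real.rpow_lt_rpow ht.le h1 hγ
    rwa [hb, ← Real.rpow_mul (by positivity), one_div, inv_mul_cancel₀ hγ.ne', Real.rpow_one] at this
  have h3 : 0 < t ^ γ := Real.rpow_pos_of_pos ht _
  rw [Real.rpow_neg ht.le, ← div_eq_mul_inv, lt_div_iff₀ h3]
  rw [lt_div_iff₀ (by positivity)] at h2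
  have h4 := le_abs_self a
  nlinarith

theorem upper_aux (hCACC : CACC) (hITER : S_ITER) (hMORREY : S_MORREY) (hAUX : S_AUX)
    (N : ℕ) (p : ℝ) (Ω : Set (E N)) (u : E N → ℝ) (hN : 2 ≤ N) (hp : 1 < p) (hp2 : p < 2)
    (hΩ : IsOpen Ω) (hu : u ∈ X Ω p) (s : ℝ) (hs0 : 0 < s) (hs : N - p * (p / (p - 1)) < s) :
    dimH (Sing Ω u) ≤ ENNReal.ofReal s := by
  obtain ⟨G, F, hW, hF, hE⟩ := hu
  obtain ⟨ψ, w, K, hA⟩ := hAUX N p hN hp hp2
  obtain ⟨C, hC, hcacc⟩ := hCACC N p ψ w K hN hp hp2 hA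
  set q : ℝ := p / (p - 1) with hq
  have hpq : p.HolderConjugate q := Real.HolderConjugate.conjExponent hp
  have hq0 : 0 < q := hpq.symm.pos
  have hfi : IntegrableOn (fun x => |F x| ^ q) Ω := by
    have h1 := hF.integrable_norm_rpow (by simpa using hq0) (by simp)
    rw [ENNReal.toReal_ofReal hq0.le] at h1
    exact h1
  set f : E N → ℝ := Ω.indicator (fun x => |F x| ^ q) with hf
  have hfint : Integrable f := hfi.integrable_indicator hΩ.measurableSet
  have hf0 : ∀ x, 0 ≤ f x := fun x => Set.indicator_nonneg (fun y _ => by positivity) x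
  refine le_trans (dimH_mono ?_) (hMORREY N f s hfint hf0 hs0)
  rintro x₀ ⟨hx₀, C₁, γ, r₁, hC₁, hγ, hr₁, hball, hsing⟩
  rw [Set.mem_ofPred_eq]
  rintro ⟨M, hM, r₀, hr₀, hmor⟩
  -- radius
  obtain ⟨R₀, hR₀, hR₀Ω⟩ := Metric.isOpen_iff.1 hΩ x₀ hx₀
  set R : ℝ := min R₀ (r₀ / 2) with hR
  have hRpos : 0 < R := lt_min hR₀ (by linarith)
  have hRr₀ : R < r₀ := (min_le_right _ _).trans_lt (by linarith)
  have hsub : ∀ r, r ≤ R → ball x₀ r ⊆ Ω := fun r hr =>
    (ball_subset_ball (hr.trans (min_le_left _ _))).trans hR₀Ω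
  set V : ℝ := (volume (ball (0 : E N) 1)).toReal with hV
  have hV0 : 0 < V := by
    rw [hV]
    exact ENNReal.toReal_pos (measure_ball_pos _ _ one_pos).ne' measure_ball_lt_top.ne
  set ε₀ : ℝ := (s - N + p * q) / q with hε₀
  have hε₀pos : 0 < ε₀ := div_pos (by linarith) hq0
  have hexp : s / q + N / p = N - p + ε₀ := by
    have h1 : (1 : ℝ) / p = 1 - 1 / q := by
      have := hpq.inv_add_inv_eq_one
      rw [one_div, one_div]; linarith
    have h2 : (N : ℝ) / p = N * (1 - 1 / q) := by rw [← h1]; ring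
    rw [h2, hε₀]
    field_simp
    ring
  set M' : ℝ := M ^ (1 / q) * V ^ (1 / p) with hM'
  have hM'0 : 0 < M' := by rw [hM']; positivity
  have hFbd : ∀ r, 0 < r → r ≤ R → ∫ x in ball x₀ r, |F x| ≤ M' * r ^ (N - p + ε₀) := by
    intro r hr hrR
    have h1 : ∫ x in ball x₀ r, |F x| ^ q ≤ M * r ^ s := by
      refine le_trans (le_of_eq ?_) (hmor r hr (hrR.trans_lt hRr₀))
      refine setIntegral_congr_fun measurableSet_ball fun x hx => ?_
      rw [hf, Set.indicator_of_mem (hsub r hrR hx)]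
    have h2 := holder_ball hpq hr (hF.mono_measure (Measure.restrict_mono (hsub r hrR) le_rfl)) h1 hM
    rwa [hexp] at h2
  have hW1 := w0_w1 hW
  have huR : MemLp u (ENNReal.ofReal p) (volume.restrict (ball x₀ R)) :=
    hW.1.mono_measure (Measure.restrict_mono (hsub R le_rfl) le_rfl)
  have hfinR : IsFiniteMeasure (volume.restrict (ball x₀ R)) :=
    ⟨by rw [Measure.restrict_apply_univ]; exact measure_ball_lt_top⟩
  have hgam := gam_pos hN hp hp2
  have hugam : IntegrableOn (fun x => |u x| ^ gam N p) (ball x₀ R) := by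
    have h1 : MemLp u (ENNReal.ofReal (gam N p)) (volume.restrict (ball x₀ R)) :=
      huR.mono_exponent (ENNReal.ofReal_le_ofReal (gam_le hN hp hp2))
    have h2 := h1.integrable_norm_rpow (by simpa using hgam) (by simp)
    rw [ENNReal.toReal_ofReal hgam.le] at h2
    exact h2
  obtain ⟨a, ha⟩ := hITER N p ψ w K C M' ε₀ R u x₀ hN hp hp2 hA hC hM'0 hε₀pos hRpos
    huR.aestronglyMeasurable hugam (by
      intro r a d hr hrR ha hd
      obtain ⟨h1, h2⟩ := hcacc Ω u G F hΩ hW1 hF hE x₀ r a d hr (hsub r hrR) ha hd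
      refine ⟨h1, h2.trans ?_⟩
      refine mul_le_mul_of_nonneg_left ?_ hC.le
      have h3 := mul_le_mul_of_nonneg_left (hFbd r hr hrR) (Real.rpow_nonneg hd.le (1 - p))
      linarith)
  obtain ⟨r₂, hr₂, hr₂₁, hr₂a⟩ := exists_radius (a := a) hC₁ hγ hr₁
  apply ha r₂ hr₂
  have h1 : ∀ᵐ x ∂(volume.restrict (ball x₀ r₂)), C₁ * ‖x - x₀‖ ^ (-γ) ≤ u x :=
    ae_restrict_of_ae_restrict_of_subset (ball_subset_ball hr₂₁) hsing
  have hnt : Nontrivial (E N) := by
    have : Nonempty (Fin N) := ⟨⟨0, by omega⟩⟩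
    infer_instance
  have h2 : ∀ᵐ x ∂(volume.restrict (ball x₀ r₂)), x ≠ x₀ := by
    apply ae_restrict_of_ae
    rw [ae_iff]
    simp
  filter_upwards [h1, h2, ae_restrict_mem measurableSet_ball] with x hx1 hx2 hx3
  refine lt_of_lt_of_le (hr₂a _ ?_ ?_) hx1
  · exact norm_pos_iff.2 (sub_ne_zero.2 hx2)
  · rwa [mem_ball, dist_eq_norm] at hx3

theorem upper_thm (hCACC : CACC) (hITER : S_ITER) (hMORREY : S_MORREY) (hAUX : S_AUX) :
    S_UPPER := by
  intro N p Ω u hN hp hp2 hΩ _ hu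
  set m : ℝ := N - p * (p / (p - 1)) with hm
  refine le_of_forall_gt_imp_ge_of_dense ?_
  intro c hc
  by_cases hct : c = ⊤
  · rw [hct]; exact le_top
  have hc2 : m < c.toReal := by
    by_contra hcon
    push Not at hcon
    have := ENNReal.ofReal_le_ofReal hcon
    rw [ENNReal.ofReal_toReal hct] at this
    exact absurd hc (not_lt.2 this)
  have hc3 : 0 < c.toReal := ENNReal.toReal_pos (lt_of_le_of_lt bot_le hc).ne' hct
  have := upper_aux hCACC hITER hMORREY hAUX N p Ω u hN hp hp2 hΩ hu c.toReal hc3 hc2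
  rwa [ENNReal.ofReal_toReal hct] at this

end Helper19.SDim.Upper
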